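import Pool.Agent.Helper11.MM.Core
import Pool.Agent.Helper93.EX.Defs

/-!
# XL (MP_fb29e9_nt): the tail property
-/

open MeasureTheory Real Set Filter Topology

set_option autoImplicit false

namespace Pool.Agent.Helper22.XL

open Pool.Agent.Helper22.AE
open Pool.Agent.Helper22.AC (cntc)
open Pool.Agent.Helper60.AD
open Pool.Agent.Helper93.EX (Mx)

/-- the error minus a long main sum is small in the mean of order `2J`, uniformly in the centre -/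
def TailP (J : ℕ) (H : ℝ → ℝ) : Prop := ∀ η : ℝ, 0 < η → ∃ n1 : ℕ, ∀ n0 : ℕ, n1 ≤ n0 → ∃ N₂ : ℕ, ∀ N : ℕ, N₂ ≤ N → ∃ V : ℝ → ℝ, Measurable V ∧
      IntegrableOn V (Icc ((2 : ℝ) ^ N) (2 * 2 ^ N)) ∧
      (∀ R ∈ Icc ((2 : ℝ) ^ N) (2 * 2 ^ N), ∀ c : ℝ × ℝ, |cntc H c R - area H * R ^ 2 - sqrt R * Mx H (2 ^ n0) R c| ^ (2 * J) ≤ V R) ∧
      (∀ R, 0 ≤ V R) ∧ ∫ R in Icc ((2 : ℝ) ^ N) (2 * 2 ^ N), V R ≤ η * ((2 : ℝ) ^ N) ^ (J + 1)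

end Pool.Agent.Helper22.XL
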