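import Pool.Agent.Helper22.LW.FinLaw
import Pool.Agent.Helper88.XL.Tail
import Pool.Agent.Helper88.XL.TailP

/-!
# XL (MP_fb29e9_nt): the tail property for almost every oval, finite theorem
-/

open MeasureTheory Real Set Filter Topology

set_option autoImplicit false

namespace Pool.Agent.Helper88.XL

open Pool.Agent.Helper22.AE
open Pool.Agent.Helper22.AC (cntc)
open Pool.Agent.Helper22.AM
open Pool.Agent.Helper22.LW (allW)
open Pool.Agent.Helper93.EX (Mx)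
open Pool.Agent.Helper60.AD
open Pool.Agent.Helper22.XL

/-- C2: the finite theorem for the tail -/
theorem fin_tail {J : ℕ} (hJ : 3 ≤ J) : ∃ L₀ : ℕ, ∀ {L : ℕ}, L₀ ≤ L → ∀ {H₀ : ℝ → ℝ}, ContDiff ℝ 2 H₀ → Function.Periodic H₀ (2 * π) →
    ∀ᵐ w : (Fin L → ℝ) × (Fin L → ℝ), (∀ θ, 0 < Hw H₀ w θ + deriv (deriv (Hw H₀ w)) θ) → TailP J (Hw H₀ w) := by
  obtain ⟨L₀, h6, h⟩ := fin_of (allW hJ)
  refine ⟨L₀, ?_⟩
  intro L hL H₀ h0 hp
  apply (vol_ac L).ae_le
  exact h hL h0 hp (fun w => TailP J (Hw H₀ w))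
    (fun h1 h2 h3 h4 h5 h7a h7b h6 b h7 h8 w h9 h10 hN h11 η hη =>
      core_tail_all h0 hp (by omega : 1 ≤ J) h1 h2 h3 h4 h5 h6
        (fun hH _ _ a1 a2 a3 => Pool.Agent.Helper90.AM.dil_low hH a1 a2 a3) b w h9 h10 (by
          intro N hN n i r hr hnr
          obtain ⟨W, g1, g2, g3, g4⟩ := h11 N hN n i r hr hnr
          exact ⟨W, g1.measurable, g1.continuousOn.integrableOn_compact isCompact_Icc, g2, g3, g4⟩) hη)

end Pool.Agent.Helper88.XL
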